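import Pool.Agent.J6H87.DD.PartB

/-!
# MP_3b2820_co: density domination exponents of forests

For a regular graph `G` with a uniform cover by spanning trees (for instance a connected regular
edge-transitive graph: a complete graph, a cycle, a hypercube, a balanced complete bipartite
graph) and a forest `F` without isolated vertices the density domination exponent is
`rho(G,F) = max (e(F) / (v(G) - 1), v(F) / v(G))`, a rational number.
-/

set_option autoImplicit false

namespace Pool.Agent.Results.MP_3b2820_co.Forests

open Pool.Agent.J6H87.DD

/-- the density domination exponent of a regular graph with a uniform cover by spanning trees and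
a forest -/
theorem result {V U : Type} [Finite V] [Finite U] [Nonempty U] (G : SimpleGraph V) (d : ℕ)
    (hd : Reg G d) (hd0 : 0 < d) (hG : Cover G ∨ (G.Connected ∧ EdgeTransitive G))
    (F : SimpleGraph U) (hF : F.IsAcyclic) (hadj : ∀ u, ∃ w, F.Adj u w) :
    IsLeast (Exps G F) (max ((Nat.card F.edgeSet : ℝ) / ((Nat.card V : ℝ) - 1))
      ((Nat.card U : ℝ) / Nat.card V)) := by
  refine main G d hd hd0 ?_ F hF hadj
  rcases hG with h | ⟨h1, h2⟩
  · exact h
  · exact cover_of_edgeTransitive G h1 h2

end Pool.Agent.Results.MP_3b2820_co.Forests
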