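import Pool.Agent.J6H87.DD.P53b

/-!
# MP_3b2820_co: the density domination exponent of the paths with five and three edges

`rho(P5, P3) = 7/10`, where `Pm` is the path with `m` edges (`pathGraph (m + 1)`).
-/

set_option autoImplicit false

namespace Pool.Agent.Results.MP_3b2820_co.PathsFiveThree

open Pool.Agent.J6H87.DD

/-- the density domination exponent of the path with five edges and the path with three edges -/
theorem result : IsLeast (Exps (SimpleGraph.pathGraph 6) (SimpleGraph.pathGraph 4))
    ((7 : ℝ) / 10) := V.main53

end Pool.Agent.Results.MP_3b2820_co.PathsFiveThree
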