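import Pool.Agent.J6H87.DD.Trees

/-!
# MP_3b2820_co: density domination exponents of pairs of trees

For all finite trees `G` and `H` with at least one edge the density domination exponent
`rho(G,H)` is rational. It is the optimal value of a linear programme: the least `c` for which
some random homomorphism from `H` to `G` has expected load at most `c` at every vertex and at
every edge of `G`.
-/

set_option autoImplicit false

namespace Pool.Agent.Results.MP_3b2820_co.TreePairs

open Pool.Agent.J6H87.DD

/-- the density domination exponent of two trees is rational, and the value of a linear
programme -/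
theorem result {V U : Type} [Finite V] [Finite U] (G : SimpleGraph V) (H : SimpleGraph U)
    (hG : G.IsTree) (hH : H.IsTree) (hV : 2 ≤ Nat.card V) (hU : 2 ≤ Nat.card U) :
    ∃ q : ℚ, IsLeast (Exps G H) (q : ℝ) ∧ IsLeast {c : ℝ | Loads G H c} (q : ℝ) :=
  Pool.Agent.J6H87.DD.V.trees_main G H hG hH hV hU

end Pool.Agent.Results.MP_3b2820_co.TreePairs
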