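import Pool.Agent.J6H87.DD.PartB

/-!
# MP_3b2820_co: density domination exponents of graphs covered by copies of `H`

If the vertices of `G` are covered uniformly by copies of `H` (for instance if `G` is
vertex-transitive and contains a copy of `H`), and `H` has no isolated vertices, then the density
domination exponent is `rho(G,H) = v(H) / v(G)`, a rational number.
-/

set_option autoImplicit false

namespace Pool.Agent.Results.MP_3b2820_co.UniformCopies

open Pool.Agent.J6H87.DD

/-- the density domination exponent of a graph that is uniformly covered by copies of `H` -/
theorem result {V U : Type} [Finite V] [Finite U] [Nonempty V] [Nonempty U] (G : SimpleGraph V)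
    (H : SimpleGraph U)
    (hG : Tiling G H ∨ (VertexTransitive G ∧
      ∃ f : U → V, Function.Injective f ∧ ∀ a b, H.Adj a b → G.Adj (f a) (f b)))
    (hadj : ∀ u, ∃ w, H.Adj u w) :
    IsLeast (Exps G H) ((Nat.card U : ℝ) / Nat.card V) := by
  refine mainB G H ?_ hadj
  rcases hG with h | ⟨h1, f, hf, hf2⟩
  · exact h
  · exact tiling_of_vertexTransitive G h1 H f hf hf2

end Pool.Agent.Results.MP_3b2820_co.UniformCopies
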